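import Pool.Agent.Results.MP_159100_ag.ColourableCurves
import Pool.Agent.TH438.FC.Pairs

set_option autoImplicit false

/-!
# Curves on `M̄_{0,n}` along which at most three marks move

The marks are `0, …, p-1` (the type `Fin p`) and `∞`, so `n = p + 1`.  From the starting files:
`IsDivisor`, `FNef`, `IsCurve`, `degree` (namespace
`Pool.Agent.Results.MP_23e236_ag.CollisionColouring`: a divisor `∑ c S • δ_S`, nonnegativity on
all F-curves, the intersection numbers `m S` of a numerical curve class with the boundary divisors
`δ_S`, all nonnegative, and its degree `d` on `ψ_∞`, the degree of a divisor on the class) and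
`InFCone` (namespace `Pool.Agent.Results.MP_159100_ag.ColourableCurves`: the class is a
nonnegative combination of F-curves).
-/

namespace Pool.Agent.Results.MP_159100_ag.ThreeMovingMarks

open Finset
open Pool.Agent.Results.MP_23e236_ag.CollisionColouring
open Pool.Agent.Results.MP_159100_ag.ColourableCurves

variable {p : ℕ}

/-- The marks of `K` and `∞` do not move along the curve: every boundary divisor that the curve
meets separates at most one of them from the others (the sets `S` do not contain `∞`). -/
def Fixed (K : Finset (Fin p)) (m : Finset (Fin p) → ℕ) : Prop :=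
  ∀ S : Finset (Fin p), m S ≠ 0 → (S ∩ K).card ≤ 1 ∨ K ⊆ S

/-- At most two of the moving marks meet at a time: every boundary divisor that the curve meets
has at most two moving marks on the side with at most one of the marks of `K ∪ {∞}`. -/
def MeetInPairs (K : Finset (Fin p)) (m : Finset (Fin p) → ℕ) : Prop :=
  ∀ S : Finset (Fin p), m S ≠ 0 →
    ((S ∩ K).card ≤ 1 ∧ (S \ K).card ≤ 2) ∨ (K ⊆ S ∧ Sᶜ.card ≤ 2)

/-- Let `C` be a curve class on `M̄_{0,p+1}` with `C · δ_S = m S ≥ 0` for all boundary divisors
along which the marks of `K ∪ {∞}`, at least three marks, are fixed.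
If at most three marks are not in `K ∪ {∞}`, or if at most two of the moving marks meet at a
time, then every F-nef divisor has nonnegative degree on `C`, and `C` is a nonnegative
combination of F-curves. -/
theorem result :
    ∀ (p : ℕ) (m : Finset (Fin p) → ℕ) (d : ℕ) (K : Finset (Fin p)), IsCurve m d →
      2 ≤ K.card → Fixed K m → (Kᶜ.card ≤ 3 ∨ MeetInPairs K m) →
      (∀ c : Finset (Fin p) → ℝ, IsDivisor c → FNef c → 0 ≤ degree c m) ∧ InFCone m := by
  intro p m d K hm hK hfix h
  have key : ∀ c : Finset (Fin p) → ℝ, IsDivisor c → FNef c → 0 ≤ degree c m := by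
    intro c hc hF
    rcases h with h | h
    · rcases Nat.lt_or_ge (Kᶜ.card) 3 with h3 | h3
      · refine Pool.Agent.TH438.FC.pairs hc hF hm K hK fun S hS => ?_
        rcases hfix S hS with h4 | h4
        · left
          refine ⟨h4, (card_le_card (t := Kᶜ) fun v hv => ?_).trans (by omega)⟩
          exact mem_compl.2 (mem_sdiff.1 hv).2
        · right
          refine ⟨h4, (card_le_card (t := Kᶜ) fun v hv => ?_).trans (by omega)⟩
          exact mem_compl.2 fun h5 => (mem_compl.1 hv) (h4 h5)
      · obtain ⟨a, b, e, hab, hae, hbe, hK3⟩ := card_eq_three.1 (le_antisymm h h3)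
        have hmem : ∀ v, v ∉ K ↔ v = a ∨ v = b ∨ v = e := fun v => by
          rw [← mem_compl, hK3]; simp
        exact Pool.Agent.TH438.FC.three hc hF hm K hK a b e ((hmem a).2 (by simp))
          ((hmem b).2 (by simp)) ((hmem e).2 (by simp)) hab hae hbe
          (fun v => by
            by_cases hv : v ∈ K
            · exact Or.inl hv
            · exact Or.inr ((hmem v).1 hv)) hfix
    · exact Pool.Agent.TH438.FC.pairs hc hF hm K hK h
  exact ⟨key, inFCone m key⟩

end Pool.Agent.Results.MP_159100_ag.ThreeMovingMarks
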